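import Pool.Agent.Helper76.CV.Goals

/-! # Project CV, packet JET2 -/

set_option autoImplicit false

open scoped ContDiff
open Filter Topology

namespace Pool.Agent.Helper35.CV.JET2

open Pool.Agent.Helper76.CV

theorem near {F : Type} [NormedAddCommGroup F] [NormedSpace ℝ F] {g : ℝ → F} {u : ℝ}
    (h : ContDiffAt ℝ 2 g u) : ∀ᶠ u' in 𝓝 u, HasDerivAt g (deriv g u') u' := by
  have h1 : ∀ᶠ u' in 𝓝 u, ContDiffAt ℝ 2 g u' := h.eventually (by simp)
  filter_upwards [h1] with u' hu'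
  exact (hu'.differentiableAt (by simp)).hasDerivAt

theorem second {F : Type} [NormedAddCommGroup F] [NormedSpace ℝ F] {g : ℝ → F} {u : ℝ}
    (h : ContDiffAt ℝ 2 g u) : HasDerivAt (deriv g) (deriv (deriv g) u) u := by
  have h1 : ContDiffAt ℝ 1 (fderiv ℝ g) u := h.fderiv_right (by norm_num)
  have h2 : ContDiffAt ℝ 1 (fun x => fderiv ℝ g x 1) u := h1.clm_apply contDiffAt_const
  have h3 : (fun x => fderiv ℝ g x 1) = deriv g := by
    funext x
    exact fderiv_apply_one_eq_deriv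
  rw [h3] at h2
  exact (h2.differentiableAt (by simp)).hasDerivAt

theorem t : Pool.Agent.Helper76.CV.JET2 := by
  intro r P a T Y u ha hT hY
  obtain ⟨ξ, hξ⟩ : ∃ ξ : ℝ → E (r + 3), ξ = fun u' => P (Y u') - a (T u') := ⟨_, rfl⟩
  obtain ⟨ξ1, hξ1⟩ : ∃ ξ1 : ℝ → E (r + 3), ξ1 =
      fun u' => P (deriv Y u') - deriv T u' • deriv a (T u') := ⟨_, rfl⟩
  have ha2 : ∀ x, ContDiffAt ℝ 2 a x := fun x => (ha.of_le (by norm_cast)).contDiffAt
  have had : ∀ x, HasDerivAt a (deriv a x) x := fun x => (near (ha2 x)).self_of_nhds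
  -- derivative of `ξ`
  have hξd : ∀ᶠ u' in 𝓝 u, HasDerivAt ξ (ξ1 u') u' := by
    filter_upwards [near hT, near hY] with u' h1 h2
    rw [hξ, hξ1]
    have h3 : HasDerivAt (fun w => a (T w)) (deriv T u' • deriv a (T u')) u' :=
      (had (T u')).scomp u' h1
    exact ((P.hasFDerivAt (x := Y u')).comp_hasDerivAt u' h2).sub h3
  have hξ2 : HasDerivAt ξ1 (P (deriv (deriv Y) u) - deriv (deriv T) u • deriv a (T u) -
      deriv T u ^ 2 • deriv (deriv a) (T u)) u := by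
    rw [hξ1]
    have h1 : HasDerivAt (fun w => deriv a (T w)) (deriv T u • deriv (deriv a) (T u)) u :=
      (second (ha2 (T u))).scomp u (near hT).self_of_nhds
    have h2 := ((P.hasFDerivAt (x := deriv Y u)).comp_hasDerivAt u (second hY)).sub
      ((second hT).smul h1)
    refine h2.congr_deriv ?_
    rw [smul_smul, ← pow_two]
    abel
  have hc : ContDiffAt ℝ 2 ξ u := by
    rw [hξ]
    exact (P.contDiff.contDiffAt.comp u hY).sub ((ha2 (T u)).comp u hT)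
  obtain ⟨v, hv⟩ : ∃ v : ℝ → ℝ, v = fun u' => √(‖ξ u'‖ ^ 2 + 1 / 10 ^ 6) := ⟨_, rfl⟩
  have hpos : ∀ w, 0 < ‖ξ w‖ ^ 2 + 1 / 10 ^ 6 := fun w => by positivity
  have hvpos : ∀ w, 0 < v w := fun w => by
    rw [hv]
    exact Real.sqrt_pos.mpr (hpos w)
  have hvd : ∀ᶠ u' in 𝓝 u, HasDerivAt v (inner ℝ (ξ u') (ξ1 u') / v u') u' := by
    filter_upwards [hξd] with u' h1
    have h2 : HasDerivAt (fun w => ‖ξ w‖ ^ 2 + 1 / 10 ^ 6) (2 * inner ℝ (ξ u') (ξ1 u')) u' :=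
      h1.norm_sq.add_const _
    have h3 := h2.sqrt (hpos u').ne'
    rw [hv]
    refine h3.congr_deriv ?_
    rw [mul_div_mul_left _ _ (by norm_num)]
  have hvc : ContDiffAt ℝ 2 v u := by
    rw [hv]
    exact ((hc.norm_sq ℝ).add contDiffAt_const).sqrt (hpos u).ne'
  have hvv : (fun u' => √(‖P (Y u') - a (T u')‖ ^ 2 + 1 / 10 ^ 6)) = v := by
    rw [hv, hξ]
  have hd1 : deriv v =ᶠ[𝓝 u] fun u' => inner ℝ (ξ u') (ξ1 u') / v u' := by
    filter_upwards [hvd] with u' h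
    exact h.deriv
  rw [hvv]
  refine ⟨hvc, ?_, ?_⟩
  · rw [hd1.self_of_nhds, hξ1, hv, hξ]
  · rw [hd1.deriv_eq]
    have h1 : HasDerivAt (fun w => inner ℝ (ξ w) (ξ1 w)) _ u :=
      hξd.self_of_nhds.inner ℝ hξ2
    have h2 := h1.div hvd.self_of_nhds (hvpos u).ne'
    have h3 : deriv (fun u' => inner ℝ (ξ u') (ξ1 u') / v u') u = _ := h2.deriv
    rw [h3]
    have e1 : P (Y u) - a (T u) = ξ u := by rw [hξ]
    have e2 : P (deriv Y u) - deriv T u • deriv a (T u) = ξ1 u := by rw [hξ1]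
    have e3 : √(‖ξ u‖ ^ 2 + 1 / 10 ^ 6) = v u := by rw [hv]
    rw [e1, e2, e3, ← real_inner_self_eq_norm_sq]
    have := (hvpos u).ne'
    field_simp
    ring

end Pool.Agent.Helper35.CV.JET2
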